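import Pool.Agent.Helper38.NS.Ph
import Pool.Agent.Helper24.UG.Ker
import Pool.Agent.Helper24.UG.Win

/-!
# NS: the pointwise part: the prediction and the linear statistic
-/

set_option autoImplicit false
open MeasureTheory Set Filter Topology
open Pool.Agent.Helper57.Zeta Pool.Agent.Helper57.LH Pool.Agent.Helper57.ED
open Pool.Agent.Helper54.LG (za zb qk SS MM qk_neg_right qk_zero_nonneg)
open Pool.Agent.Helper93.UG (zc sp)
open Pool.Agent.Helper69.UG (XX NX)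
open Pool.Agent.Helper24.UG (summable_q0 zc_fin)
open Pool.Agent.Helper57.NS

namespace Pool.Agent.Helper66.NS

lemma sp_pos {T : ℝ} (hT : 1 < T) : 0 < sp T := by
  unfold sp
  have := Real.log_pos hT
  positivity

lemma XX_pos {T M : ℝ} (hT : 1 < T) (hM : 0 < M) : 0 < XX T M := by
  unfold XX
  have := Real.log_pos hT
  positivity

lemma wk_nonneg (k L : ℝ) : 0 ≤ wk k L := by
  unfold wk
  positivity

lemma ph_nonneg (k L x : ℝ) : 0 ≤ ph k L x :=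
  mul_nonneg (wk_nonneg k L) (Finset.sum_nonneg fun _ _ => qk_zero_nonneg _)

lemma qk_sp {k T t : ℝ} (hk : 0 < k) (hT : 1 < T) (j : ℕ) (ρ : ZS) :
    qk 0 (2 * Real.pi * (((ρ : ℂ).im - t) / sp T) / (1 + k) ^ j) = qk 0 (zb (XX T ((1 + k) ^ j)) t ρ) := by
  rw [← qk_neg_right]
  congr 1
  unfold sp zb XX
  have := (Real.log_pos hT).ne'
  have := Real.pi_pos.ne'
  have h1 : (1 + k) ≠ 0 := by positivity
  field_simp
  ring

lemma ph_eq {k T L t : ℝ} (hk : 0 < k) (hT : 1 < T) (ρ : ZS) :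
    mx ρ * ph k L (((ρ : ℂ).im - t) / sp T) = ∑ j ∈ Sc k L, wk k L * (mx ρ * qk 0 (zb (XX T ((1 + k) ^ j)) t ρ)) := by
  unfold ph
  rw [Finset.mul_sum, Finset.mul_sum]
  refine Finset.sum_congr rfl fun j _ => ?_
  rw [qk_sp hk hT]
  ring

lemma summable_ph {k T L t : ℝ} (hk : 0 < k) (hT : 1 < T) :
    Summable fun ρ : ZS => mx ρ * ph k L (((ρ : ℂ).im - t) / sp T) := by
  rw [show (fun ρ : ZS => mx ρ * ph k L (((ρ : ℂ).im - t) / sp T)) =
    fun ρ : ZS => ∑ j ∈ Sc k L, wk k L * (mx ρ * qk 0 (zb (XX T ((1 + k) ^ j)) t ρ)) from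
      funext fun ρ => ph_eq hk hT ρ]
  exact summable_sum fun j _ => (summable_q0 (XX_pos hT (by positivity)) t).mul_left _

/-- G1: the linear statistic as a sum over the scales -/
theorem tot_eq {k T L t : ℝ} (hk : 0 < k) (hT : 1 < T) :
    Tk k T L t = wk k L * ∑ j ∈ Sc k L, NX (XX T ((1 + k) ^ j)) t := by
  have h : ∀ j ∈ Sc k L, Summable fun ρ : ZS => wk k L * (mx ρ * qk 0 (zb (XX T ((1 + k) ^ j)) t ρ)) :=
    fun j _ => (summable_q0 (XX_pos hT (by positivity)) t).mul_left _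
  unfold Tk Helper69.UG.NX
  rw [tsum_congr (ph_eq hk hT), Summable.tsum_finsetSum h, Finset.mul_sum]
  exact Finset.sum_congr rfl fun j _ => tsum_mul_left

open Classical in
/-- The sum over the zeros outside of `t + W s`, at distance at most `L s`. -/
noncomputable def osum (k T L t : ℝ) (W : Set ℝ) : ℝ :=
  ∑' ρ : ZS, mx ρ * (if |(ρ : ℂ).im - t| ≤ L * sp T ∧ ((ρ : ℂ).im - t) / sp T ∉ W then
    ph k L (((ρ : ℂ).im - t) / sp T) else 0)

lemma prd_eq (k T L t : ℝ) (W : Set ℝ) : prd k T L t W = Ak k L - osum k T L t W := rfl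

open Classical in
lemma split_sum {k T L t : ℝ} (hk : 0 < k) (hT : 1 < T) {W : Set ℝ} (hW : W ⊆ Icc (-L) L) :
    ∃ F : Finset ZS, (∀ ρ : ZS, ρ ∈ F ↔ ((ρ : ℂ).im - t) / sp T ∈ W) ∧ cnt T t W = ∑ ρ ∈ F, mx ρ ∧
      Tk k T L t = Ok k T L t + osum k T L t W + ∑ ρ ∈ F, mx ρ * ph k L (((ρ : ℂ).im - t) / sp T) := by
  have hs := sp_pos hT
  have hsub : {u : ℝ | (u - t) / sp T ∈ W} ⊆ Icc (t - L * sp T) (t + L * sp T) := by
    intro u hu
    have h1 := hW hu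
    rw [mem_Icc, le_div_iff₀ hs, div_le_iff₀ hs] at h1
    rw [mem_Icc]
    constructor <;> linarith [h1.1, h1.2]
  obtain ⟨F, hF, h1⟩ := zc_fin hsub
  refine ⟨F, fun ρ => hF ρ, h1, ?_⟩
  set g : ZS → ℝ := fun ρ => mx ρ * ph k L (((ρ : ℂ).im - t) / sp T) with hg
  have hg0 : ∀ ρ, 0 ≤ g ρ := fun ρ => mul_nonneg (mx_nonneg _) (ph_nonneg _ _ _)
  have hgs : Summable g := summable_ph hk hT
  set g1 : ZS → ℝ := fun ρ => mx ρ * (if |(ρ : ℂ).im - t| ≤ L * sp T then 0 else ph k L (((ρ : ℂ).im - t) / sp T)) with hg1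
  set g2 : ZS → ℝ := fun ρ => mx ρ * (if |(ρ : ℂ).im - t| ≤ L * sp T ∧ ((ρ : ℂ).im - t) / sp T ∉ W then
    ph k L (((ρ : ℂ).im - t) / sp T) else 0) with hg2
  set g3 : ZS → ℝ := fun ρ => if ρ ∈ F then g ρ else 0 with hg3
  have e : ∀ ρ, g ρ = g1 ρ + g2 ρ + g3 ρ := by
    intro ρ
    simp only [hg1, hg2, hg3, hg]
    by_cases ha : |(ρ : ℂ).im - t| ≤ L * sp T
    · by_cases hb : ((ρ : ℂ).im - t) / sp T ∈ W
      · have hc : ρ ∈ F := (hF ρ).2 hb
        simp [ha, hb, hc]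
      · have hc : ρ ∉ F := fun h => hb ((hF ρ).1 h)
        simp [ha, hb, hc]
    · have hb : ((ρ : ℂ).im - t) / sp T ∉ W := by
        intro h
        have h2 := hW h
        rw [mem_Icc, le_div_iff₀ hs, div_le_iff₀ hs] at h2
        apply ha
        rw [abs_le]
        constructor <;> linarith [h2.1, h2.2]
      have hc : ρ ∉ F := fun h => hb ((hF ρ).1 h)
      simp [ha, hc]
  have s1 : Summable g1 := by
    refine Summable.of_nonneg_of_le (fun ρ => ?_) (fun ρ => ?_) hgs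
    · simp only [hg1]
      split_ifs
      · simp
      · exact hg0 ρ
    · simp only [hg1]
      split_ifs
      · simpa using hg0 ρ
      · exact le_refl _
  have s2 : Summable g2 := by
    refine Summable.of_nonneg_of_le (fun ρ => ?_) (fun ρ => ?_) hgs
    · simp only [hg2]
      split_ifs
      · exact hg0 ρ
      · simp
    · simp only [hg2]
      split_ifs
      · exact le_refl _
      · simpa using hg0 ρ
  have s3 : ∑' ρ, g3 ρ = ∑ ρ ∈ F, g ρ := by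
    rw [tsum_eq_sum (s := F)]
    · exact Finset.sum_congr rfl fun ρ hρ => by simp [hg3, hρ]
    · intro ρ hρ
      simp [hg3, hρ]
  have s3' : Summable g3 := by
    refine summable_of_ne_finset_zero (s := F) fun ρ hρ => ?_
    simp [hg3, hρ]
  have h5 : Tk k T L t = ∑' ρ, (g1 ρ + g2 ρ + g3 ρ) := tsum_congr e
  rw [h5, (s1.add s2).tsum_add s3', s1.tsum_add s2, s3]
  rfl

/-- the difference of the number of the zeros and the prediction -/
lemma diff_eq {k T L t : ℝ} {W : Set ℝ} {F : Finset ZS} (hcnt : cnt T t W = ∑ ρ ∈ F, mx ρ)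
    (hTot : Tk k T L t = Ok k T L t + osum k T L t W + ∑ ρ ∈ F, mx ρ * ph k L (((ρ : ℂ).im - t) / sp T)) :
    cnt T t W - prd k T L t W = (Tk k T L t - Mk k L) - (Ok k T L t - (Mk k L - Ak k L)) +
      ∑ ρ ∈ F, mx ρ * (1 - ph k L (((ρ : ℂ).im - t) / sp T)) := by
  have : ∑ ρ ∈ F, mx ρ * (1 - ph k L (((ρ : ℂ).im - t) / sp T)) =
      ∑ ρ ∈ F, mx ρ - ∑ ρ ∈ F, mx ρ * ph k L (((ρ : ℂ).im - t) / sp T) := by
    rw [← Finset.sum_sub_distrib]
    exact Finset.sum_congr rfl fun ρ _ => by ring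
  rw [prd_eq, this, hTot, hcnt]
  ring

/-- H: pointwise, from the estimate of the kernel near `0` -/
theorem bad_imp_of {k : ℝ} (hk : 0 < k) (hk8 : k ≤ 1 / 8) (ph_near : ∃ C : ℝ, 1 ≤ C ∧ ∀ L x : ℝ, C ≤ L →
      |x| ≤ L ^ (k / 8) → 0 ≤ 1 - ph k L x ∧ 1 - ph k L x ≤ C * L ^ (-(7 / 4 * k))) :
    ∃ c C : ℝ, 0 < c ∧ 1 ≤ C ∧ ∀ T L e t v : ℝ, 3 ≤ T → C ≤ L →
    |Ok k T L t - (Mk k L - Ak k L)| ≤ v → (zc (Wk k T L 1 t) : ℝ) ≤ L ^ (k / 4) → Bad k T L e t →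
    e - v - C * L ^ (-c) < |Tk k T L t - Mk k L| := by
  obtain ⟨C, hC, hphi⟩ := ph_near
  refine ⟨3 / 2 * k, C, by positivity, hC, ?_⟩
  intro T L e t v hT hLC h2 h3 hB
  obtain ⟨W, hW, hWe⟩ := hB
  have hT1 : 1 < T := by linarith
  have hs := sp_pos hT1
  have hL1 : 1 ≤ L := by linarith
  have hL0 : 0 < L := by linarith
  have hl : L ^ (k / 8) ≤ L := by
    calc L ^ (k / 8) ≤ L ^ (1 : ℝ) := Real.rpow_le_rpow_of_exponent_le hL1 (by linarith)
      _ = L := Real.rpow_one L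
  obtain ⟨F, hF, hcnt, hTot⟩ := split_sum (t := t) hk hT1 (hW.trans (Icc_subset_Icc (neg_le_neg hl) hl))
  have h4 := diff_eq hcnt hTot
  have h5 : 0 ≤ ∑ ρ ∈ F, mx ρ * (1 - ph k L (((ρ : ℂ).im - t) / sp T)) ∧
      ∑ ρ ∈ F, mx ρ * (1 - ph k L (((ρ : ℂ).im - t) / sp T)) ≤ C * L ^ (-(7 / 4 * k)) * (zc (Wk k T L 1 t) : ℝ) := by
    have hx : ∀ ρ ∈ F, |((ρ : ℂ).im - t) / sp T| ≤ L ^ (k / 8) := by
      intro ρ hρ
      have := hW ((hF ρ).1 hρ)
      rw [abs_le]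
      exact this
    constructor
    · exact Finset.sum_nonneg fun ρ hρ => mul_nonneg (mx_nonneg _) (hphi L _ hLC (hx ρ hρ)).1
    · obtain ⟨F', hF', h6⟩ := zc_fin (I := Wk k T L 1 t) (a := t - 1 * L ^ (k / 8) * sp T)
        (b := t + 1 * L ^ (k / 8) * sp T) subset_rfl
      have hFF : F ⊆ F' := by
        intro ρ hρ
        rw [hF' ρ]
        have h7 := abs_le.1 (hx ρ hρ)
        rw [le_div_iff₀ hs, div_le_iff₀ hs] at h7
        unfold Wk
        rw [mem_Icc]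
        constructor <;> linarith [h7.1, h7.2]
      calc ∑ ρ ∈ F, mx ρ * (1 - ph k L (((ρ : ℂ).im - t) / sp T)) ≤ ∑ ρ ∈ F, mx ρ * (C * L ^ (-(7 / 4 * k))) :=
            Finset.sum_le_sum fun ρ hρ => mul_le_mul_of_nonneg_left (hphi L _ hLC (hx ρ hρ)).2 (mx_nonneg _)
        _ = C * L ^ (-(7 / 4 * k)) * ∑ ρ ∈ F, mx ρ := by rw [← Finset.sum_mul]; ring
        _ ≤ C * L ^ (-(7 / 4 * k)) * ∑ ρ ∈ F', mx ρ := by
            refine mul_le_mul_of_nonneg_left ?_ (by positivity)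
            exact Finset.sum_le_sum_of_subset_of_nonneg hFF fun ρ _ _ => mx_nonneg _
        _ = _ := by rw [h6]
  have h6 : C * L ^ (-(7 / 4 * k)) * (zc (Wk k T L 1 t) : ℝ) ≤ C * L ^ (-(3 / 2 * k)) := by
    calc C * L ^ (-(7 / 4 * k)) * (zc (Wk k T L 1 t) : ℝ) ≤ C * L ^ (-(7 / 4 * k)) * L ^ (k / 4) :=
          mul_le_mul_of_nonneg_left h3 (by positivity)
      _ = C * (L ^ (-(7 / 4 * k)) * L ^ (k / 4)) := by ring
      _ = C * L ^ (-(3 / 2 * k)) := by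
          rw [← Real.rpow_add hL0]
          congr 2
          ring
  by_contra hcon
  push Not at hcon
  have h7 : |cnt T t W - prd k T L t W| ≤ e := by
    rw [h4, abs_le]
    have h8 := abs_le.1 hcon
    have h9 := abs_le.1 h2
    constructor <;> linarith [h8.1, h8.2, h5.1, h5.2, h6, h9.1, h9.2]
  linarith

/-- H: pointwise -/
theorem bad_imp {k : ℝ} (hk : 0 < k) (hk8 : k ≤ 1 / 8) : ∃ c C : ℝ, 0 < c ∧ 1 ≤ C ∧ ∀ T L e t v : ℝ, 3 ≤ T → C ≤ L →
    |Ok k T L t - (Mk k L - Ak k L)| ≤ v → (zc (Wk k T L 1 t) : ℝ) ≤ L ^ (k / 4) → Bad k T L e t →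
    e - v - C * L ^ (-c) < |Tk k T L t - Mk k L| :=
  bad_imp_of hk hk8 (Pool.Agent.Helper38.NS.ph_near hk hk8)

/-- H: pointwise, the other direction (`W = ∅`) -/
theorem bad_of {k : ℝ} (hk : 0 < k) : ∀ T L e t v : ℝ, 3 ≤ T → 1 ≤ L → |Ok k T L t - (Mk k L - Ak k L)| ≤ v →
    e + v < |Tk k T L t - Mk k L| → Bad k T L e t := by
  intro T L e t v hT hL h1 h2
  obtain ⟨F, hF, hcnt, hTot⟩ := split_sum (T := T) (t := t) (L := L) hk (by linarith) (empty_subset (Icc (-L) L))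
  have h4 := diff_eq hcnt hTot
  have hF0 : F = ∅ := Finset.eq_empty_of_forall_notMem fun ρ hρ => (hF ρ).1 hρ
  refine ⟨∅, empty_subset _, ?_⟩
  rw [h4, hF0, Finset.sum_empty, add_zero]
  have h5 := abs_sub_abs_le_abs_sub (Tk k T L t - Mk k L) (Ok k T L t - (Mk k L - Ak k L))
  linarith

end Pool.Agent.Helper66.NS
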