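import Pool.Agent.Helper57.NS.Defs

/-!
# NS: a thick bound holds on wide intervals
-/

set_option autoImplicit false
open MeasureTheory Set Filter Topology
open Pool.Agent.Helper93.UG (sp)
open Pool.Agent.Helper57.NS

namespace Pool.Agent.Helper66.NS

/-- ZL2: a thick bound holds on a wide interval, off a set `8 K` times as large (cells of length `s`) -/
theorem thick_wide {T m v K : ℝ} {f : ℝ → ℝ} (hT : 100 ≤ T) (hm : 0 ≤ m) (hK : 1 ≤ K) (hKT : K ≤ Real.log T)
    (h : Thick T m v f) :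
    ∃ E : Set ℝ, volume E ≤ ENNReal.ofReal (8 * K * m * T) ∧ ∀ t ∈ Icc T (2 * T), t ∉ E → ∀ u : ℝ, |u - t| ≤ K * sp T →
      |f u| ≤ v := by
  obtain ⟨E₀, hE₀, h₀⟩ := h
  have hlog : 0 < Real.log T := Real.log_pos (by linarith)
  have hs : 0 < sp T := by
    unfold sp
    positivity
  set s := sp T with hsdef
  have hKs : K * s ≤ 7 := by
    have h1 : K * s ≤ Real.log T * s := mul_le_mul_of_nonneg_right hKT hs.le
    have h2 : Real.log T * s = 2 * Real.pi := by
      rw [hsdef]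
      unfold sp
      field_simp
    have := Real.pi_lt_d2
    linarith
  have hs7 : s ≤ 7 := by nlinarith
  let J : Set ℤ := {j | ∃ u ∈ Ico ((j : ℝ) * s) (((j : ℝ) + 1) * s), T - 7 ≤ u ∧ u ≤ 2 * T + 7 ∧ v < |f u|}
  have hcell : ∀ j ∈ J, Ico ((j : ℝ) * s) (((j : ℝ) + 1) * s) ⊆ E₀ := by
    rintro j ⟨u, hu, h1, h2, h3⟩ t ht
    rw [mem_Ico] at hu ht
    have h4 : |u - t| ≤ s := by
      rw [abs_le]
      constructor <;> nlinarith [hu.1, hu.2, ht.1, ht.2]
    have h5 := abs_le.1 h4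
    exact h₀ t ⟨by linarith [h5.1, h5.2], by linarith [h5.1, h5.2]⟩ u h4 h3
  have hdis : J.PairwiseDisjoint fun j : ℤ => Ico ((j : ℝ) * s) (((j : ℝ) + 1) * s) := by
    intro i _ j _ hij
    have := pairwise_disjoint_Ico_zsmul s hij
    simpa only [Function.onFun, zsmul_eq_mul, Int.cast_add, Int.cast_one] using this
  have hvol : ∑' _ : J, ENNReal.ofReal s ≤ ENNReal.ofReal (m * T) := by
    calc ∑' _ : J, ENNReal.ofReal s = ∑' j : J, volume (Ico (((j : ℤ) : ℝ) * s) ((((j : ℤ) : ℝ) + 1) * s)) := by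
          refine tsum_congr fun j => ?_
          rw [Real.volume_Ico]
          congr 1
          ring
      _ = volume (⋃ j ∈ J, Ico ((j : ℝ) * s) (((j : ℝ) + 1) * s)) :=
          (measure_biUnion (to_countable J) hdis fun _ _ => measurableSet_Ico).symm
      _ ≤ volume E₀ := measure_mono (iUnion₂_subset hcell)
      _ ≤ _ := hE₀
  refine ⟨⋃ j ∈ J, Icc ((j : ℝ) * s - K * s) (((j : ℝ) + 1) * s + K * s), ?_, ?_⟩
  · calc volume (⋃ j ∈ J, Icc ((j : ℝ) * s - K * s) (((j : ℝ) + 1) * s + K * s))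
        ≤ ∑' j : J, volume (Icc (((j : ℤ) : ℝ) * s - K * s) ((((j : ℤ) : ℝ) + 1) * s + K * s)) :=
          measure_biUnion_le _ (to_countable J) _
      _ ≤ ∑' _ : J, ENNReal.ofReal (3 * K) * ENNReal.ofReal s := by
          refine ENNReal.tsum_le_tsum fun j => ?_
          rw [Real.volume_Icc, ← ENNReal.ofReal_mul (by positivity)]
          refine ENNReal.ofReal_le_ofReal ?_
          nlinarith
      _ = ENNReal.ofReal (3 * K) * ∑' _ : J, ENNReal.ofReal s := ENNReal.tsum_mul_left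
      _ ≤ ENNReal.ofReal (3 * K) * ENNReal.ofReal (m * T) := mul_le_mul_right hvol _
      _ = ENNReal.ofReal (3 * K * (m * T)) := (ENNReal.ofReal_mul (by positivity)).symm
      _ ≤ _ := ENNReal.ofReal_le_ofReal (by
          have : 0 ≤ K * m * T := by positivity
          linarith)
  · intro t ht htE u hu
    by_contra hcon
    push Not at hcon
    apply htE
    have hu' := abs_le.1 hu
    have h1 : ((⌊u / s⌋ : ℤ) : ℝ) * s ≤ u := by
      have := Int.floor_le (u / s)
      rwa [le_div_iff₀ hs] at this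
    have h2 : u < (((⌊u / s⌋ : ℤ) : ℝ) + 1) * s := by
      have := Int.lt_floor_add_one (u / s)
      rwa [div_lt_iff₀ hs] at this
    refine mem_iUnion₂.2 ⟨⌊u / s⌋, ⟨u, ⟨h1, h2⟩, ?_, ?_, hcon⟩, ?_⟩
    · linarith [hu'.1, hu'.2, ht.1]
    · linarith [hu'.1, hu'.2, ht.2]
    · rw [mem_Icc]
      constructor <;> linarith [hu'.1, hu'.2]

end Pool.Agent.Helper66.NS
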